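import Pool.Agent.H369.AS.Stm

/-!
AS4: the node conditions.
-/

set_option autoImplicit false

namespace Pool.Agent.H665.AS

open Pool.Agent.H369.RE Pool.Agent.H369.AS

/-- the coefficient of `δ^N` -/
theorem core {k : Type} [Field k] {d : ℕ} (ζ : PowerSeries k) (p : Fin d → k)
    (Q : Fin d → PowerSeries k) (c : Fin d → Fin d → BB k) (b' : ℕ)
    (h : ∑ a, ∑ b, c a b * PowerSeries.C (PowerSeries.C (p a)) *
      PowerSeries.coeff b' (shf ζ (Q b)) = 0) (N : ℕ) :
    ∑ l ∈ Finset.range (N + 1), (l.choose b' : PowerSeries k) * ζ ^ (l - b') *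
      ∑ a, ∑ b, PowerSeries.coeff (N - l) (c a b) *
        PowerSeries.C (p a * PowerSeries.coeff l (Q b)) = 0 := by
  have hsmall : ∀ l < b', (l.choose b' : PowerSeries k) * ζ ^ (l - b') *
      ∑ a, ∑ b, PowerSeries.coeff (N - l) (c a b) *
        PowerSeries.C (p a * PowerSeries.coeff l (Q b)) = 0 := by
    intro l hl
    rw [Nat.choose_eq_zero_of_lt hl, Nat.cast_zero, zero_mul, zero_mul]
  rcases lt_or_ge N b' with hN | hN
  · exact Finset.sum_eq_zero fun l hl => hsmall l (by
      have := Finset.mem_range.1 hl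
      omega)
  · obtain ⟨M, rfl⟩ : ∃ M, N = b' + M := ⟨N - b', by omega⟩
    have h1 := congrArg (PowerSeries.coeff M) h
    rw [map_zero, map_sum] at h1
    rw [add_assoc, Finset.sum_range_add]
    rw [Finset.sum_eq_zero fun l hl => hsmall l (Finset.mem_range.1 hl), zero_add]
    rw [← h1]
    have h2 : ∀ a b, PowerSeries.coeff M (c a b * PowerSeries.C (PowerSeries.C (p a)) *
        PowerSeries.coeff b' (shf ζ (Q b))) =
        ∑ A ∈ Finset.range (M + 1), ((b' + A).choose b' : PowerSeries k) * ζ ^ A *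
          (PowerSeries.coeff (M - A) (c a b) *
            PowerSeries.C (p a * PowerSeries.coeff (b' + A) (Q b))) := by
      intro a b
      rw [mul_comm, PowerSeries.coeff_mul,
        Finset.Nat.sum_antidiagonal_eq_sum_range_succ (fun i j =>
          PowerSeries.coeff i (PowerSeries.coeff b' (shf ζ (Q b))) *
            PowerSeries.coeff j (c a b * PowerSeries.C (PowerSeries.C (p a)))) M]
      refine Finset.sum_congr rfl fun A _ => ?_
      rw [PowerSeries.coeff_mul_C]
      unfold shf
      rw [PowerSeries.coeff_mk, PowerSeries.coeff_mk, add_comm A b', map_mul]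
      ring
    simp only [map_sum, h2]
    simp only [Finset.mul_sum]
    rw [Finset.sum_comm]
    refine Finset.sum_congr rfl fun a _ => ?_
    rw [Finset.sum_comm]
    refine Finset.sum_congr rfl fun b _ => ?_
    refine Finset.sum_congr rfl fun A _ => ?_
    rw [Nat.add_sub_cancel_left, Nat.add_sub_add_left]

theorem nod (h1 : S_sh) : S_nod := by
  intro k _ d γ ζ u₀ v₀ P Q c hyp a' b' N hab
  obtain ⟨sh, hsh⟩ := h1 k ζ
  refine core ζ (fun a => PowerSeries.coeff a' (P a * u₀)) (fun b => Q b * v₀) c b' ?_ N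
  have h2 : ∀ b, shf ζ (Q b * v₀) = shf ζ (Q b) * shf ζ v₀ := by
    intro b
    rw [← hsh, ← hsh, ← hsh, map_mul]
  have h3 : ∀ a b, c a b * PowerSeries.C (PowerSeries.C (PowerSeries.coeff a' (P a * u₀))) *
      PowerSeries.coeff b' (shf ζ (Q b * v₀)) =
      ∑ i ∈ Finset.HasAntidiagonal.antidiagonal a', ∑ j ∈ Finset.HasAntidiagonal.antidiagonal b',
        (PowerSeries.C (PowerSeries.C (PowerSeries.coeff i.2 u₀)) *
          PowerSeries.coeff j.2 (shf ζ v₀)) *
        (c a b * PowerSeries.C (PowerSeries.C (PowerSeries.coeff i.1 (P a))) *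
          PowerSeries.coeff j.1 (shf ζ (Q b))) := by
    intro a b
    rw [h2, PowerSeries.coeff_mul, PowerSeries.coeff_mul, map_sum, map_sum, Finset.mul_sum,
      Finset.sum_comm]
    refine Finset.sum_congr rfl fun j _ => ?_
    rw [Finset.mul_sum, Finset.sum_mul]
    refine Finset.sum_congr rfl fun i _ => ?_
    rw [map_mul, map_mul]
    ring
  simp only [h3]
  have h4 : ∀ a, ∑ b, ∑ i ∈ Finset.HasAntidiagonal.antidiagonal a', ∑ j ∈ Finset.HasAntidiagonal.antidiagonal b',
      (PowerSeries.C (PowerSeries.C (PowerSeries.coeff i.2 u₀)) *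
          PowerSeries.coeff j.2 (shf ζ v₀)) *
        (c a b * PowerSeries.C (PowerSeries.C (PowerSeries.coeff i.1 (P a))) *
          PowerSeries.coeff j.1 (shf ζ (Q b))) =
      ∑ i ∈ Finset.HasAntidiagonal.antidiagonal a', ∑ j ∈ Finset.HasAntidiagonal.antidiagonal b',
      (PowerSeries.C (PowerSeries.C (PowerSeries.coeff i.2 u₀)) *
          PowerSeries.coeff j.2 (shf ζ v₀)) *
        ∑ b, (c a b * PowerSeries.C (PowerSeries.C (PowerSeries.coeff i.1 (P a))) *
          PowerSeries.coeff j.1 (shf ζ (Q b))) := by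
    intro a
    rw [Finset.sum_comm]
    refine Finset.sum_congr rfl fun i _ => ?_
    rw [Finset.sum_comm]
    refine Finset.sum_congr rfl fun j _ => ?_
    rw [Finset.mul_sum]
  simp only [h4]
  rw [Finset.sum_comm]
  refine Finset.sum_eq_zero fun i hi => ?_
  rw [Finset.sum_comm]
  refine Finset.sum_eq_zero fun j hj => ?_
  rw [← Finset.mul_sum]
  have e1 := Finset.HasAntidiagonal.mem_antidiagonal.1 hi
  have e2 := Finset.HasAntidiagonal.mem_antidiagonal.1 hj
  rw [hyp i.1 j.1 (by omega), mul_zero]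

end Pool.Agent.H665.AS
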